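import Pool.Agent.TH885.NW.Main
import Pool.Agent.TH603.Cut.Deg

/-! Lower bounds for the degrees of curves through very general points with given multiplicities,
all large numbers of points. -/

namespace Pool.Agent.TH885.NW

open Finset Pool.Agent.TH603.Sur Pool.Agent.H932R3

/-- **Curves through `n` very general points with large multiplicities have large degree, all large
`n`.** -/
theorem degree_bound {C : ℝ} (hFS : FirstS C) (hFE : FirstE C) {ε : ℝ} (hε : 0 < ε) : ∃ N0 : ℕ,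
    ∀ n : ℕ, N0 ≤ n → ∀ w : Fin n → ℕ,
      (n : ℝ) * ((n : ℝ) / 2 + 2) ≤ ∑ i, (w i : ℝ) →
      ∀ {L : Type} [Field L] [CharZero L] (P : Fin n → Fin 2 → L),
      AlgebraicIndependent ℚ (fun ij : Fin n × Fin 2 => P ij.1 ij.2) →
      ∀ (d : ℕ) (G : MvPolynomial (Fin 3) L), G ≠ 0 → G.IsHomogeneous d →
        (∀ i, G ∈ (Ideal.span ({MvPolynomial.X 0 - MvPolynomial.C (P i 0) * MvPolynomial.X 2,
          MvPolynomial.X 1 - MvPolynomial.C (P i 1) * MvPolynomial.X 2} :
            Set (MvPolynomial (Fin 3) L))) ^ (w i)) →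
        ((∑ i, (w i : ℝ)) + (n : ℝ) / 2) / √(n : ℝ) < (d : ℝ) + 3 / 2 + ε := by
  obtain ⟨N1, -, h⟩ := expDim_cut hFS hFE hε
  refine ⟨max N1 (⌈1 / ε + ε⌉₊ ^ 2), fun n hn w hw L _ _ P hP d G hG hGd hGm => ?_⟩
  have hn1' : N1 ≤ n := (le_max_left _ _).trans hn
  have hn2' : ⌈1 / ε + ε⌉₊ ^ 2 ≤ n := (le_max_right _ _).trans hn
  have hsq : 1 / ε + ε ≤ √(n : ℝ) := by
    refine (Nat.le_ceil _).trans ?_
    apply Real.le_sqrt_of_sq_le
    exact_mod_cast hn2'
  have hn1 : 1 + ε ^ 2 ≤ ε * √(n : ℝ) := by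
    have h1 := mul_le_mul_of_nonneg_left hsq hε.le
    have e : ε * (1 / ε + ε) = 1 + ε ^ 2 := by field_simp
    linarith
  by_contra hcon
  push Not at hcon
  obtain ⟨F, hF, hF'⟩ := h n hn1' w
  have h1 := hF' P (fun h0 => hF (hP.eq_zero_of_aeval_eq_zero F h0)) d (Or.inr (Or.inl ⟨hw, hcon⟩))
  have h3 := Pool.Agent.TH603.Cut.cond_large hε hn1 hw hcon
  unfold ExpDim at h1
  have h4 : (d + 2).choose 2 - ∑ i, (w i + 1).choose 2 = 0 := Nat.sub_eq_zero_of_le h3
  rw [h4] at h1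
  have : Module.Finite L ↥(MvPolynomial.homogeneousSubmodule (Fin 3) L d ⊓
      Submodule.restrictScalars L
        (⨅ i : Fin n, (Ideal.span ({MvPolynomial.X 0 - MvPolynomial.C (P i 0) * MvPolynomial.X 2,
          MvPolynomial.X 1 - MvPolynomial.C (P i 1) * MvPolynomial.X 2} :
            Set (MvPolynomial (Fin 3) L))) ^ (w i))) := by
    have : Module.Finite L ↥(MvPolynomial.homogeneousSubmodule (Fin 3) L d) :=
      Module.finite_of_finrank_pos (by
        rw [TH603.Sur.finrank_forms]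
        exact Nat.choose_pos (by omega))
    exact Submodule.finiteDimensional_inf_left _ _
  have h5 := Submodule.finrank_eq_zero.1 h1
  apply hG
  have h6 : G ∈ (MvPolynomial.homogeneousSubmodule (Fin 3) L d ⊓
      Submodule.restrictScalars L
        (⨅ i : Fin n, (Ideal.span ({MvPolynomial.X 0 - MvPolynomial.C (P i 0) * MvPolynomial.X 2,
          MvPolynomial.X 1 - MvPolynomial.C (P i 1) * MvPolynomial.X 2} :
            Set (MvPolynomial (Fin 3) L))) ^ (w i))) := by
    refine ⟨hGd, ?_⟩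
    show G ∈ (⨅ i : Fin n, _ : Ideal _)
    rw [Ideal.mem_iInf]
    exact hGm
  rw [h5] at h6
  exact (Submodule.mem_bot L).1 h6

end Pool.Agent.TH885.NW
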