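import Pool.Agent.TH885.NW.Win
import Pool.Agent.TH885.NW.Deg
import Pool.Agent.TH641.NW.First
import Pool.Agent.TH387.SH.Tr
import Pool.Agent.TH603.EL.Key

/-! The expected dimension at all large numbers of general points: unconditional statements. -/

namespace Pool.Agent.TH885.NW

open Finset Pool.Agent.TH176.Nag Pool.Agent.TH603.Sur Pool.Agent.TH603.Cut Pool.Agent.H932R3

theorem keyE : Pool.Agent.TH641.NW.KeyE := fun _ _ _ _ h0 h1 h => Pool.Agent.TH603.EL.Emp_key h0 h1 h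

theorem keyS : Pool.Agent.TH641.NW.KeyS := fun _ _ _ _ _ h0 h1 hirr h =>
  Pool.Agent.TH387.SH.Sur_key h0 h1 hirr h

theorem fS : FirstS 10 := fun P hP K δ hK hδ0 hδ hirr ι _ w d Z hZ h =>
  Pool.Agent.TH641.NW.firstS keyS P hP K δ hK hδ0 hδ hirr ι w d Z hZ h

theorem fE : FirstE 10 := by
  intro P hP
  obtain ⟨d0, hd0⟩ := Pool.Agent.TH641.NW.firstE keyE P hP
  exact ⟨d0, fun K δ hK hδ0 hδ _ ι _ w d Z hd hZ h => hd0 K δ hK hδ0 hδ ι w d Z hd hZ h⟩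

/-- **Postulation of `n` general fat points of arbitrary multiplicities, all large `n`.** -/
theorem all_cut {ε : ℝ} (hε : 0 < ε) :
    ∃ N0 : ℕ, 9 ≤ N0 ∧ ∀ n : ℕ, N0 ≤ n →
    ∀ w : Fin n → ℕ, ∃ F : MvPolynomial (Fin n × Fin 2) ℚ, F ≠ 0 ∧
      ∀ {L : Type} [Field L] [CharZero L] (P : Fin n → Fin 2 → L),
        MvPolynomial.aeval (fun ij : Fin n × Fin 2 => P ij.1 ij.2) F ≠ 0 →
        ∀ d : ℕ, (√(n : ℝ) * d < ∑ i, (w i : ℝ) ∨
          ((n : ℝ) * ((n : ℝ) / 2 + 2) ≤ ∑ i, (w i : ℝ) ∧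
            (d : ℝ) + 3 / 2 + ε ≤ ((∑ i, (w i : ℝ)) + (n : ℝ) / 2) / √(n : ℝ)) ∨
          ∃ b : ℕ, (∀ i, w i ≤ b + 1) ∧
            ((∑ i, (max (w i) b : ℕ) : ℝ) + (n : ℝ) / 2) / √(n : ℝ) + ε ≤ (d : ℝ) + 3 / 2) →
          ExpDim L w P d := expDim_cut fS fE hε

/-- **The expected dimension at `n` general points of multiplicities `m` and `m + 1`, in all
degrees but at most one, all large `n`.** -/
theorem all_near {ε : ℝ} (hε : 0 < ε) :
    ∃ N0 : ℕ, ∀ n : ℕ, N0 ≤ n → ∀ m : ℕ, 1 ≤ m → ∀ w : Fin n → ℕ, (∀ i, w i = m ∨ w i = m + 1) →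
      ∀ {L : Type} [Field L] [CharZero L],
      ∃ F : MvPolynomial (Fin n × Fin 2) ℚ, F ≠ 0 ∧ ∀ (P : Fin n → Fin 2 → L),
        MvPolynomial.aeval (fun ij : Fin n × Fin 2 => P ij.1 ij.2) F ≠ 0 →
        ∀ d : ℕ, ε ≤ |2 * (d : ℝ) + 3 - √(n : ℝ) - 2 * (∑ i, (w i : ℝ)) / √(n : ℝ)| →
          ExpDim L w P d := expDim_near fS fE hε

/-- **The expected dimension at `n` general points of one multiplicity, in all degrees but at
most one, all large `n`.** -/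
theorem all_uni {ε : ℝ} (hε : 0 < ε) :
    ∃ N0 : ℕ, ∀ n : ℕ, N0 ≤ n → ∀ m : ℕ, 1 ≤ m → ∀ {L : Type} [Field L] [CharZero L],
      ∃ F : MvPolynomial (Fin n × Fin 2) ℚ, F ≠ 0 ∧ ∀ (P : Fin n → Fin 2 → L),
        MvPolynomial.aeval (fun ij : Fin n × Fin 2 => P ij.1 ij.2) F ≠ 0 →
        ∀ d : ℕ, ε ≤ |2 * (d : ℝ) + 3 - √(n : ℝ) * (2 * m + 1)| →
          ExpDim L (fun _ => m) P d := expDim_uni fS fE hε

/-- the window hypothesis, for every bound on the multiplicities -/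
theorem all_win {ε : ℝ} (hε : 0 < ε) : ∃ N0 : ℕ,
    ∀ n : ℕ, N0 ≤ n → ∀ X : ℝ, Pool.Agent.H248R6.WinHyp n X ε := win fS fE hε

/-- **Curves through `n` very general points with large multiplicities have large degree, all large
`n`.** -/
theorem all_degree {ε : ℝ} (hε : 0 < ε) : ∃ N0 : ℕ,
    ∀ n : ℕ, N0 ≤ n → ∀ w : Fin n → ℕ,
      (n : ℝ) * ((n : ℝ) / 2 + 2) ≤ ∑ i, (w i : ℝ) →
      ∀ {L : Type} [Field L] [CharZero L] (P : Fin n → Fin 2 → L),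
      AlgebraicIndependent ℚ (fun ij : Fin n × Fin 2 => P ij.1 ij.2) →
      ∀ (d : ℕ) (G : MvPolynomial (Fin 3) L), G ≠ 0 → G.IsHomogeneous d →
        (∀ i, G ∈ (Ideal.span ({MvPolynomial.X 0 - MvPolynomial.C (P i 0) * MvPolynomial.X 2,
          MvPolynomial.X 1 - MvPolynomial.C (P i 1) * MvPolynomial.X 2} :
            Set (MvPolynomial (Fin 3) L))) ^ (w i)) →
        ((∑ i, (w i : ℝ)) + (n : ℝ) / 2) / √(n : ℝ) < (d : ℝ) + 3 / 2 + ε := degree_bound fS fE hε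

end Pool.Agent.TH885.NW
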