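import Mathlib
import Pool.Agent.H852.NB.Equi

set_option autoImplicit false

/-! The proportion of the integers `m` for which an interval around `ξ m + β` contains an integer,
`ξ` irrational: a sharp upper bound. -/

namespace Pool.Agent.TH885.NW

theorem exists_gap {ξ : ℝ} (h : Irrational ξ) (K : ℕ) :
    ∃ δ : ℝ, 0 < δ ∧ ∀ k : ℕ, 1 ≤ k → k ≤ K → ∀ j : ℤ, δ ≤ |ξ * k - j| := by
  induction K with
  | zero => exact ⟨1, one_pos, fun k h1 h2 => by omega⟩
  | succ K ih =>
    obtain ⟨δ, hδ, hK⟩ := ih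
    have hne : 0 < |ξ * ((K + 1 : ℕ) : ℝ) - round (ξ * ((K + 1 : ℕ) : ℝ))| := by
      rw [abs_pos, sub_ne_zero]
      exact (h.mul_natCast (Nat.succ_ne_zero K)).ne_int _
    refine ⟨min δ _, lt_min hδ hne, fun k h1 h2 j => ?_⟩
    rcases Nat.lt_or_ge K k with h3 | h3
    · have h4 : k = K + 1 := by omega
      subst h4
      exact (min_le_right _ _).trans (round_le _ _)
    · exact (min_le_left _ _).trans (hK k h1 h3 j)

theorem exists_den {ξ : ℝ} (h : Irrational ξ) (K : ℕ) :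
    ∃ (q : ℕ) (p : ℤ), K < q ∧ IsCoprime p (q : ℤ) ∧ |ξ * q - p| ≤ 1 / q := by
  obtain ⟨δ, hδ, hK⟩ := exists_gap h K
  obtain ⟨n, hn⟩ := exists_nat_gt (1 / δ)
  have hn0 : 0 < n := by
    rcases Nat.eq_zero_or_pos n with h0 | h0
    · exfalso
      rw [h0, Nat.cast_zero] at hn
      exact absurd hn (not_lt.2 (by positivity))
    · exact h0
  obtain ⟨x, hx1, hx2⟩ := Real.exists_rat_abs_sub_le_and_den_le ξ hn0
  have hd0 : (0 : ℝ) < x.den := by exact_mod_cast x.den_pos
  have hxe : (x : ℝ) * x.den = x.num := by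
    have := Rat.mul_den_eq_num x
    exact_mod_cast this
  have h1 : |ξ * x.den - x.num| ≤ 1 / (n + 1) := by
    have e : ξ * x.den - x.num = (ξ - x) * x.den := by rw [sub_mul, hxe]
    rw [e, abs_mul, abs_of_pos hd0]
    calc |ξ - x| * x.den ≤ 1 / ((n + 1) * x.den) * x.den :=
          mul_le_mul_of_nonneg_right hx1 hd0.le
      _ = 1 / (n + 1) := by field_simp
  refine ⟨x.den, x.num, ?_, ?_, h1.trans ?_⟩
  · by_contra hcon
    push Not at hcon
    have h2 := hK x.den x.den_pos hcon x.num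
    have h3 : (1 : ℝ) / (n + 1) < δ := by
      rw [div_lt_iff₀ (by positivity)]
      rw [div_lt_iff₀ hδ] at hn
      nlinarith
    linarith
  · rw [Int.isCoprime_iff_gcd_eq_one]
    exact x.reduced
  · apply one_div_le_one_div_of_le hd0
    have : (x.den : ℝ) ≤ n := by exact_mod_cast hx2
    linarith

/-- **Sharp count.** -/
theorem count_sharp {ξ : ℝ} (hξ : Irrational ξ) (β a b : ℝ) (hab : 0 ≤ a + b) {ε : ℝ} (hε : 0 < ε) :
    ∃ M0 : ℝ, ∀ M : ℕ, M0 ≤ M → ∀ B : Finset ℕ, (∀ m ∈ B, m < M) →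
      (∀ m ∈ B, ∃ D : ℤ, ξ * m + β - a ≤ D ∧ (D : ℝ) ≤ ξ * m + β + b) →
      (B.card : ℝ) ≤ (a + b + ε) * M := by
  classical
  obtain ⟨K, hK⟩ := exists_nat_gt (6 / ε)
  obtain ⟨q, p, hqK, hcop, hpq⟩ := exists_den hξ K
  have hq0 : 0 < q := by omega
  have hqR : (0 : ℝ) < q := by exact_mod_cast hq0
  have hqε : 6 ≤ ε * q := by
    have h1 : (K : ℝ) < q := by exact_mod_cast hqK
    have h2 : 6 / ε < q := hK.trans h1
    rw [div_lt_iff₀ hε] at h2
    linarith
  obtain ⟨l, hl⟩ : ∃ l : ℝ, l = q * (a + b) + 2 := ⟨_, rfl⟩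
  have hl0 : 0 ≤ l := by rw [hl]; positivity
  refine ⟨2 * (l + 1) / ε, fun M hM B hB hbad => ?_⟩
  choose! D hD1 hD2 using hbad
  have hfib : ∀ x ∈ B.image (fun m => m / q), (B.filter fun m => m / q = x).card ≤ ⌊l + 1⌋₊ := by
    intro x _
    apply Nat.le_floor
    refine Pool.Agent.H852.NB.card_le_int (f := fun m => q * D m - p * ((m % q : ℕ) : ℤ))
      (fun m hm m' hm' hmm => ?_) hl0 fun m hm m' hm' => ?_
    · have hm2 := (Finset.mem_filter.1 hm).2
      have hm2' := (Finset.mem_filter.1 hm').2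
      simp only at hmm
      have h1 : (q : ℤ) ∣ p * (((m % q : ℕ) : ℤ) - ((m' % q : ℕ) : ℤ)) :=
        ⟨D m - D m', by linear_combination (-1 : ℤ) * hmm⟩
      have h2 : (q : ℤ) ∣ ((m % q : ℕ) : ℤ) - ((m' % q : ℕ) : ℤ) := hcop.symm.dvd_of_dvd_mul_left h1
      have h3 := Nat.mod_lt m hq0
      have h4 := Nat.mod_lt m' hq0
      have h5 : ((m % q : ℕ) : ℤ) - ((m' % q : ℕ) : ℤ) = 0 := by
        apply Int.eq_zero_of_abs_lt_dvd h2
        rw [abs_lt]
        omega
      have h6 : m % q = m' % q := by omega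
      rw [← Nat.mod_add_div m q, ← Nat.mod_add_div m' q, h6, hm2, hm2']
    · have hm1 := Finset.mem_filter.1 hm
      have hm1' := Finset.mem_filter.1 hm'
      have key : ∀ m ∈ B, m / q = x → q * (ξ * ((q * x : ℕ) : ℝ) + β - a) - 1 ≤
          ((q * D m - p * ((m % q : ℕ) : ℤ) : ℤ) : ℝ) ∧
          ((q * D m - p * ((m % q : ℕ) : ℤ) : ℤ) : ℝ) ≤
            q * (ξ * ((q * x : ℕ) : ℝ) + β + b) + 1 := by
        intro m hm hx
        have h1 := hD1 m hm
        have h2 := hD2 m hm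
        obtain ⟨k, hk⟩ : ∃ k : ℕ, k = m % q := ⟨_, rfl⟩
        have h3 : (m : ℝ) = k + ((q * x : ℕ) : ℝ) := by
          have := Nat.mod_add_div m q
          rw [← hk, hx] at this
          exact_mod_cast this.symm
        have hkq : (k : ℝ) ≤ q := by
          have := Nat.mod_lt m hq0
          rw [← hk] at this
          exact_mod_cast this.le
        rw [← hk]
        rw [h3] at h1 h2
        push_cast at h1 h2 ⊢
        have h4 : |(k : ℝ) * (ξ * q - p)| ≤ 1 := by
          rw [abs_mul, abs_of_nonneg (Nat.cast_nonneg k)]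
          calc (k : ℝ) * |ξ * q - p| ≤ q * (1 / q) :=
                mul_le_mul hkq hpq (abs_nonneg _) hqR.le
            _ = 1 := by field_simp
        rw [abs_le] at h4
        have h5 := mul_le_mul_of_nonneg_left h1 hqR.le
        have h6 := mul_le_mul_of_nonneg_left h2 hqR.le
        constructor <;> nlinarith [h4.1, h4.2]
      have k1 := key m hm1.1 hm1.2
      have k2 := key m' hm1'.1 hm1'.2
      show ((q * D m - p * ((m % q : ℕ) : ℤ) : ℤ) : ℝ) -
        ((q * D m' - p * ((m' % q : ℕ) : ℤ) : ℤ) : ℝ) ≤ l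
      rw [hl]
      nlinarith [k1.1, k1.2, k2.1, k2.2]
  have h1 := Finset.card_le_mul_card_image B ⌊l + 1⌋₊ hfib
  have h2 : (B.image fun m => m / q).card ≤ M / q + 1 := by
    have h3 : B.image (fun m => m / q) ⊆ Finset.range (M / q + 1) := by
      intro x hx
      obtain ⟨m, hm, rfl⟩ := Finset.mem_image.1 hx
      rw [Finset.mem_range]
      exact Nat.lt_succ_of_le (Nat.div_le_div_right (hB m hm).le)
    have h4 := Finset.card_le_card h3
    rwa [Finset.card_range] at h4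
  have h3 : (B.card : ℝ) ≤ (l + 1) * (M / q + 1) := by
    have h4 : (B.card : ℝ) ≤ ((⌊l + 1⌋₊ : ℕ) : ℝ) * (((M / q + 1 : ℕ)) : ℝ) := by
      exact_mod_cast h1.trans (Nat.mul_le_mul_left _ h2)
    refine h4.trans (mul_le_mul (Nat.floor_le (by linarith)) ?_ (Nat.cast_nonneg _) (by linarith))
    rw [Nat.cast_add, Nat.cast_one]
    have := Nat.cast_div_le (α := ℝ) (m := M) (n := q)
    linarith
  refine h3.trans ?_
  rw [div_le_iff₀ hε] at hM
  have hM0 : (0 : ℝ) ≤ M := Nat.cast_nonneg M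
  have e1 : (l + 1) * ((M : ℝ) / q + 1) = (a + b) * M + 3 * M / q + (l + 1) := by
    rw [hl]; field_simp; ring
  rw [e1]
  have h5 : 3 * (M : ℝ) / q ≤ ε / 2 * M := by
    rw [div_le_iff₀ hqR]
    nlinarith
  linarith

end Pool.Agent.TH885.NW
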