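import Pool.Agent.TH885.NW.Asm
import Pool.Agent.TH603.Cut.Main
import Pool.Agent.TH868.NG.Fin

/-! The expected dimension at all large numbers of general fat points, in all degrees but at most
one. -/

namespace Pool.Agent.TH885.NW

open Finset Pool.Agent.TH176.Nag Pool.Agent.TH603.Sur Pool.Agent.TH603.Cut Pool.Agent.H932R3

/-- **Postulation of `n` general fat points of arbitrary multiplicities, all large `n`.** -/
theorem expDim_cut {C : ℝ} (hFS : FirstS C) (hFE : FirstE C) {ε : ℝ} (hε : 0 < ε) :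
    ∃ N0 : ℕ, 9 ≤ N0 ∧ ∀ n : ℕ, N0 ≤ n →
    ∀ w : Fin n → ℕ, ∃ F : MvPolynomial (Fin n × Fin 2) ℚ, F ≠ 0 ∧
      ∀ {L : Type} [Field L] [CharZero L] (P : Fin n → Fin 2 → L),
        MvPolynomial.aeval (fun ij : Fin n × Fin 2 => P ij.1 ij.2) F ≠ 0 →
        ∀ d : ℕ, (√(n : ℝ) * d < ∑ i, (w i : ℝ) ∨
          ((n : ℝ) * ((n : ℝ) / 2 + 2) ≤ ∑ i, (w i : ℝ) ∧
            (d : ℝ) + 3 / 2 + ε ≤ ((∑ i, (w i : ℝ)) + (n : ℝ) / 2) / √(n : ℝ)) ∨
          ∃ b : ℕ, (∀ i, w i ≤ b + 1) ∧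
            ((∑ i, (max (w i) b : ℕ) : ℝ) + (n : ℝ) / 2) / √(n : ℝ) + ε ≤ (d : ℝ) + 3 / 2) →
          ExpDim L w P d := by
  obtain ⟨N1, hN1, hC⟩ := Emp_large hFE hε
  obtain ⟨N2, hN2, hS⟩ := Sur_large hFS hε
  refine ⟨max (max N1 N2) 9, le_max_right _ _, fun n hn w => ?_⟩
  have h1 : N1 ≤ n := ((le_max_left _ _).trans (le_max_left _ _)).trans hn
  have h2 : N2 ≤ n := ((le_max_right _ _).trans (le_max_left _ _)).trans hn
  have h9 : 9 ≤ n := (le_max_right _ _).trans hn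
  have hC' := hC n h1
  have hS' := hS n h2
  have hn : (1 : ℝ) ≤ (n : ℝ) := by exact_mod_cast (by omega : 1 ≤ n)
  have hs : 1 ≤ √(n : ℝ) := Real.one_le_sqrt.2 hn
  have hs0 : 0 < √(n : ℝ) := by linarith
  have hss : √(n : ℝ) * √(n : ℝ) = n := Real.mul_self_sqrt (by linarith)
  have hsum : (∑ i, (w i : ℝ)) = ((∑ i, w i : ℕ) : ℝ) := by push_cast; rfl
  have hA : ∀ d : ℕ, (√(n : ℝ) * d < ∑ i, (w i : ℝ) ∨
      ((n : ℝ) * ((n : ℝ) / 2 + 2) ≤ ∑ i, (w i : ℝ) ∧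
        (d : ℝ) + 3 / 2 + ε ≤ ((∑ i, (w i : ℝ)) + (n : ℝ) / 2) / √(n : ℝ))) → d ≤ ∑ i, w i + n := by
    intro d hd
    rw [hsum] at hd
    rcases hd with hd | ⟨_, hd⟩
    · have h1 : (d : ℝ) ≤ √(n : ℝ) * d := le_mul_of_one_le_left (Nat.cast_nonneg _) hs
      have h2 : (d : ℝ) < ((∑ i, w i : ℕ) : ℝ) := by linarith
      have : d < ∑ i, w i := by exact_mod_cast h2
      omega
    · have h1 : (((∑ i, w i : ℕ) : ℝ) + (n : ℝ) / 2) / √(n : ℝ) ≤ ((∑ i, w i : ℕ) : ℝ) + (n : ℝ) / 2 :=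
        div_le_self (by positivity) hs
      have h2 : (d : ℝ) ≤ ((∑ i, w i + n : ℕ) : ℝ) := by rw [Nat.cast_add]; linarith
      exact_mod_cast h2
  have hAE : ∀ d : ℕ, (√(n : ℝ) * d < ∑ i, (w i : ℝ) ∨
      ((n : ℝ) * ((n : ℝ) / 2 + 2) ≤ ∑ i, (w i : ℝ) ∧
        (d : ℝ) + 3 / 2 + ε ≤ ((∑ i, (w i : ℝ)) + (n : ℝ) / 2) / √(n : ℝ))) → Emp w (TZ d) := by
    intro d hd
    rcases hd with hd | ⟨hd1, hd2⟩
    · refine Pool.Agent.TH868.NG.Emp_plane (ι := Fin n) ?_ ?_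
      · rw [Fintype.card_fin]; exact h9
      · rw [Fintype.card_fin]; exact hd
    · rw [hsum] at hd1 hd2
      exact hC' _ (Fintype.card_fin _) w d hd1 hd2
  have hBS : ∀ d : ℕ, (∃ b : ℕ, (∀ i, w i ≤ b + 1) ∧
      ((∑ i, (max (w i) b : ℕ) : ℝ) + (n : ℝ) / 2) / √(n : ℝ) + ε ≤ (d : ℝ) + 3 / 2) →
      Sur w (TZ d) := by
    rintro d ⟨b, hb, hlt⟩
    refine hS' _ (Fintype.card_fin _) w b d hb ?_
    push_cast at hlt ⊢
    exact hlt
  obtain ⟨F, hF, hF'⟩ := expDim_two (w := w) _ hA hAE hBS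
  refine ⟨F, hF, fun {L} _ _ P hP d hd => hF' P hP d ?_⟩
  rcases hd with hd | hd | hd
  · exact Or.inl (Or.inl hd)
  · exact Or.inl (Or.inr hd)
  · exact Or.inr hd

/-- **The expected dimension at `n` general points of multiplicities `m` and `m + 1`, in all
degrees but at most one, all large `n`.** -/
theorem expDim_near {C : ℝ} (hFS : FirstS C) (hFE : FirstE C) {ε : ℝ} (hε : 0 < ε) :
    ∃ N0 : ℕ, ∀ n : ℕ, N0 ≤ n → ∀ m : ℕ, 1 ≤ m → ∀ w : Fin n → ℕ, (∀ i, w i = m ∨ w i = m + 1) →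
      ∀ {L : Type} [Field L] [CharZero L],
      ∃ F : MvPolynomial (Fin n × Fin 2) ℚ, F ≠ 0 ∧ ∀ (P : Fin n → Fin 2 → L),
        MvPolynomial.aeval (fun ij : Fin n × Fin 2 => P ij.1 ij.2) F ≠ 0 →
        ∀ d : ℕ, ε ≤ |2 * (d : ℝ) + 3 - √(n : ℝ) - 2 * (∑ i, (w i : ℝ)) / √(n : ℝ)| →
          ExpDim L w P d := by
  obtain ⟨N1, _, h⟩ := expDim_cut hFS hFE (half_pos hε)
  refine ⟨max N1 144, fun n hn m hm w hw L _ _ => ?_⟩
  have h' := h n ((le_max_left _ _).trans hn)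
  have h144 : 144 ≤ n := (le_max_right _ _).trans hn
  have hnR : (144 : ℝ) ≤ n := by exact_mod_cast h144
  have hs12 : (12 : ℝ) ≤ √(n : ℝ) := by
    apply Real.le_sqrt_of_sq_le
    norm_num
    exact_mod_cast h144
  have hs0 : 0 < √(n : ℝ) := by linarith
  have hss : √(n : ℝ) * √(n : ℝ) = n := Real.mul_self_sqrt (by linarith)
  rcases lt_or_ge (∑ i, (w i : ℝ)) ((n : ℝ) * ((n : ℝ) / 2 + 2)) with hsm | hlg
  · -- small multiplicities
    have hmn : (m : ℝ) < (n : ℝ) / 2 + 2 := by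
      have h1 : (n : ℝ) * m ≤ ∑ i, (w i : ℝ) := by
        have : (n : ℝ) * m = ∑ _i : Fin n, (m : ℝ) := by simp
        rw [this]
        refine sum_le_sum fun i _ => ?_
        rcases hw i with h | h <;> rw [h]
        push_cast
        linarith
      have h2 : (n : ℝ) * m < n * ((n : ℝ) / 2 + 2) := lt_of_le_of_lt h1 hsm
      exact lt_of_mul_lt_mul_left h2 (by linarith)
    obtain ⟨F, hF, hF'⟩ := near_points (L := L) (n := n) (m := m) (by omega) hm hw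
      (near_cond (by omega) hw (Or.inl (by
        push_cast
        nlinarith)))
    exact ⟨F, hF, fun P hP d _ => hF' P hP d⟩
  · obtain ⟨F, hF, hF'⟩ := h' w
    refine ⟨F, hF, fun P hP d hd => hF' P hP d ?_⟩
    have e1 : ((∑ i, (w i : ℝ)) + (n : ℝ) / 2) / √(n : ℝ) = (∑ i, (w i : ℝ)) / √(n : ℝ) + √(n : ℝ) / 2 := by
      rw [add_div]
      congr 1
      rw [div_right_comm, Real.div_sqrt]
    have e2 : 2 * (∑ i, (w i : ℝ)) / √(n : ℝ) = 2 * ((∑ i, (w i : ℝ)) / √(n : ℝ)) := by ring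
    rw [e2] at hd
    rcases le_abs.1 hd with hd | hd
    · right; right
      refine ⟨m, fun i => by rcases hw i with h | h <;> omega, ?_⟩
      have e : ∑ i, ((max (w i) m : ℕ) : ℝ) = ∑ i, (w i : ℝ) :=
        Finset.sum_congr rfl fun i _ => by
          have : max (w i) m = w i := by rcases hw i with h | h <;> omega
          rw [this]
      rw [e, e1]
      linarith
    · right; left
      refine ⟨hlg, ?_⟩
      rw [e1]
      linarith

/-- **The expected dimension at `n` general points of one multiplicity, in all degrees but at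
most one, all large `n`.** -/
theorem expDim_uni {C : ℝ} (hFS : FirstS C) (hFE : FirstE C) {ε : ℝ} (hε : 0 < ε) :
    ∃ N0 : ℕ, ∀ n : ℕ, N0 ≤ n → ∀ m : ℕ, 1 ≤ m → ∀ {L : Type} [Field L] [CharZero L],
      ∃ F : MvPolynomial (Fin n × Fin 2) ℚ, F ≠ 0 ∧ ∀ (P : Fin n → Fin 2 → L),
        MvPolynomial.aeval (fun ij : Fin n × Fin 2 => P ij.1 ij.2) F ≠ 0 →
        ∀ d : ℕ, ε ≤ |2 * (d : ℝ) + 3 - √(n : ℝ) * (2 * m + 1)| →
          ExpDim L (fun _ => m) P d := by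
  obtain ⟨N0, h⟩ := expDim_near hFS hFE hε
  refine ⟨N0, fun n hn m hm L _ _ => ?_⟩
  obtain ⟨F, hF, hF'⟩ := h n hn m hm (fun _ => m) (fun _ => Or.inl rfl) (L := L)
  refine ⟨F, hF, fun P hP d hd => hF' P hP d ?_⟩
  have e : 2 * (∑ _i : Fin n, (m : ℝ)) / √(n : ℝ) = 2 * (√(n : ℝ) * m) := by
    rw [Finset.sum_const, Finset.card_univ, Fintype.card_fin, nsmul_eq_mul, mul_div_assoc, mul_comm (n : ℝ),
      mul_div_assoc, Real.div_sqrt]
    ring
  rw [e]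
  have e2 : 2 * (d : ℝ) + 3 - √(n : ℝ) - 2 * (√(n : ℝ) * m) = 2 * (d : ℝ) + 3 - √(n : ℝ) * (2 * m + 1) := by
    ring
  rw [e2]
  exact hd

end Pool.Agent.TH885.NW
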