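import Pool.Agent.TH885.NW.Main
import Pool.Agent.H248R6.Win

/-! The window hypothesis of the starting library holds at all large numbers of points, for all
multiplicities. -/

namespace Pool.Agent.TH885.NW

open Pool.Agent.H248R6

/-- the window hypothesis, for every bound on the multiplicities -/
theorem win {C : ℝ} (hFS : FirstS C) (hFE : FirstE C) {ε : ℝ} (hε : 0 < ε) : ∃ N0 : ℕ,
    ∀ n : ℕ, N0 ≤ n → ∀ X : ℝ, WinHyp n X ε := by
  obtain ⟨N0, h⟩ := expDim_near hFS hFE hε
  exact ⟨N0, fun n hn X L _ _ m hm _ w hw => h n hn m hm w hw (L := L)⟩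

end Pool.Agent.TH885.NW
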